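import Pool.Agent.H752R3.Concentrated

/-!
Under CH (more generally when the bounding number is `ℵ₁`) every Hurewicz `𝔟`-concentrated set of
reals is productively Hurewicz, even with respect to all topological spaces.
-/

namespace Pool.Agent.Results.MP_e8f8b0_gt.ConcentratedProductive

open Set Filter Cardinal Pool.Agent.H752R3

universe v

/-- The bounding number: the least cardinality of a family of functions which is unbounded under
eventual domination. -/
noncomputable def bNumber : Cardinal.{0} :=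
  sInf {κ | ∃ B : Set (ℕ → ℕ), #B = κ ∧ ¬ ∃ g : ℕ → ℕ, ∀ f ∈ B, ∀ᶠ n in atTop, f n ≤ g n}

/-- `X` is `κ`-concentrated (on some countable subset). -/
def IsConcentrated (κ : Cardinal.{0}) (X : Set (ℕ → Bool)) : Prop :=
  κ ≤ #X ∧ ∃ A : Set (ℕ → Bool), A ⊆ X ∧ A.Countable ∧
    ∀ U : Set (ℕ → Bool), IsOpen U → A ⊆ U → #(X \ U : Set (ℕ → Bool)) < κ

/-- The bounding number is at most the continuum. -/
theorem bNumber_le : bNumber ≤ 𝔠 := by
  have h : #(Set.univ : Set (ℕ → ℕ)) ∈ {κ | ∃ B : Set (ℕ → ℕ), #B = κ ∧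
      ¬ ∃ g : ℕ → ℕ, ∀ f ∈ B, ∀ᶠ n in atTop, f n ≤ g n} := by
    refine ⟨Set.univ, rfl, ?_⟩
    rintro ⟨g, hg⟩
    obtain ⟨N, hN⟩ := eventually_atTop.1 (hg (fun n => g n + 1) trivial)
    have := hN N le_rfl
    omega
  refine (csInf_le' h).trans ?_
  simp

/-- **Under CH, or just `𝔟 = ℵ₁`, every Hurewicz `𝔟`-concentrated set of reals is productively
Hurewicz**; the factor `Y` may be any Hurewicz topological space. -/
theorem result (hb : (ℵ₁ : Cardinal.{0}) = 𝔠 ∨ bNumber = ℵ₁) (X : Set (ℕ → Bool))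
    (hX : HurewiczSp X) (hc : IsConcentrated bNumber X) (Y : Type v) [TopologicalSpace Y]
    (hY : HurewiczSp Y) : HurewiczSp (X × Y) := by
  have hb' : bNumber ≤ ℵ₁ := by
    rcases hb with h | h
    · rw [h]; exact bNumber_le
    · exact h.le
  obtain ⟨-, A, hAX, hA, hconc⟩ := hc
  refine hurewicz_prod_of_concentrated hX (Q := Subtype.val ⁻¹' A)
    (hA.preimage Subtype.val_injective) ?_ hY
  intro U hU hAU
  obtain ⟨V, hV, rfl⟩ := isOpen_induced_iff.1 hU
  have hAV : A ⊆ V := fun a ha => hAU (a := ⟨a, hAX ha⟩) ha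
  have h1 : (X \ V : Set (ℕ → Bool)).Countable :=
    countable_of_lt_aleph1 (lt_of_lt_of_le (hconc V hV hAV) hb')
  have h2 : (Subtype.val ⁻¹' V : Set X)ᶜ = Subtype.val ⁻¹' (X \ V) := by
    ext x
    simp
  rw [h2]
  exact h1.preimage Subtype.val_injective

end Pool.Agent.Results.MP_e8f8b0_gt.ConcentratedProductive
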